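import Pool.Agent.R413.CK.Mo
import Pool.Agent.Results.MP_03e5d0_nt.FullClassX49

/-!
# The average rank, and all moments of the rank, in a family of quadratic twists of `X_0(49)`

`D ≥ 1` runs over all squarefree numbers with all prime factors `≡ 1 mod 4`, and `E_D` is the quadratic
twist by `D` of `X_0(49) : y² + x y = x³ - x² - 2 x - 1`. For `M` and `D` in the class the squarefree part
`tw M D` of `M D` is in the class, and `E_{tw M D}` is the twist by `D` of `E_M`.

`corank D` is the corank of the matrix `mat D` over `𝔽₂`, given by Legendre symbols and quartic residue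
symbols of the prime factors of `D`; it is zero iff `E_D(ℚ)` is finite and `Ш[2] = 0`, and
the rank of `E_D(ℚ)` is at most `2 corank D`. For every fixed `M` of the class, as `D` runs over the class,
ordered by size:
* for every `m` the average of `(corank (tw M D)) ^ m` tends to `moment m = ∑ r ^ m law r`, where
  `law r = c / ∏_{i < r} (2^{i+1} - 1)`, `c = 0.4194...`; all these moments are finite, and
  `moment 1 = ∑_{i ≥ 1} 1 / (2 ^ i + 1) = 0.764...`;
* for every `m` the upper average of `(rank E_{tw M D}(ℚ)) ^ m` is at most `2 ^ m moment m`;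
* the upper average rank is at most `2 ∑_{i ≥ 1} 1 / (2 ^ i + 1) < 1.5292`.
-/

set_option autoImplicit false

open Filter Topology

namespace Pool.Agent.Results.MP_788af2_nt.AverageRankTwistsX49

open Pool.Agent.Results.MP_4a9ea6_nt.TwoPartTwistsX49 (E split mat)
open Pool.Agent.Results.MP_92892c_nt.FullClassTwoPartX49 (Family RankZeroShaTwo)
open Pool.Agent.Results.MP_03e5d0_nt.FullClassX49 (tw c)

/-- the rank of the group of the rational points of `E_D` -/
noncomputable def rank (D : ℕ) : ℕ := Module.finrank ℤ (E D).toAffine.Point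

/-- the corank of the matrix `mat D` over the field with two elements -/
noncomputable def corank (D : ℕ) : ℕ := (split D).card - (mat D).rank

/-- the law of the coranks -/
noncomputable def law (r : ℕ) : ℝ := c / ∏ i ∈ Finset.range r, ((2 : ℝ) ^ (i + 1) - 1)

/-- the moments of the law -/
noncomputable def moment (m : ℕ) : ℝ := ∑' r : ℕ, (r : ℝ) ^ m * law r

open Classical in
/-- the numbers of the class up to `X` -/
noncomputable def upTo (X : ℕ) : Finset ℕ := (Finset.Icc 1 X).filter Family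

/-- the average of `f` over the numbers of the class up to `X` -/
noncomputable def avg (f : ℕ → ℝ) (X : ℕ) : ℝ := (∑ D ∈ upTo X, f D) / (upTo X).card

section proof

open Pool.Agent.R413.SQ
open Pool.Agent.R413.CK (mr mr_pr mr_hasSum mu mu_bounds rank_corank corank_zero clsX num_clsX
  mo_summ mean_eq low_num)
open Pool.Agent.Results.MP_4a9ea6_nt.TwoPartTwistsX49 (Adm)
open Pool.Agent.Results.MP_03e5d0_nt.FullClassX49 (sel_det)

theorem hc : 0.4194 < c ∧ c < 0.4195 :=
  ⟨Pool.Agent.Y948.CQ.t_C2.2.2.2.1, Pool.Agent.Y948.CQ.t_C2.2.2.2.2⟩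

theorem corank_ck (D : ℕ) : corank D = Pool.Agent.R413.CK.corank D := rfl

theorem law_mr : law = mr := by
  funext r
  rw [mr_pr]
  rfl

theorem upTo_cls (X : ℕ) : upTo X = clsX X := by
  unfold upTo clsX
  congr 1

theorem card_num (X : ℕ) : ((upTo X).card : ℝ) = (Joint.num (fun _ => True) X : ℝ) := by
  rw [num_clsX, upTo_cls]
  congr 2
  ext D
  simp

theorem facts (D : ℕ) (hD : Family D) :
    Module.Finite ℤ (E D).toAffine.Point ∧ rank D ≤ 2 * corank D ∧
    (corank D = 0 ↔ RankZeroShaTwo D) := by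
  refine ⟨(rank_corank hD).1, (rank_corank hD).2, ?_⟩
  rw [corank_ck, corank_zero]
  exact (sel_det hD).symm

theorem tw_facts (M D : ℕ) (hM : Family M) (hD : Family D) :
    Family (tw M D) ∧ M * D = tw M D * Nat.gcd M D ^ 2 :=
  ⟨Joint.adm_tw hM hD, (Joint.ac_tw hM hD).2⟩

theorem law_facts : HasSum law 1 ∧ (∀ m : ℕ, Summable fun r : ℕ => (r : ℝ) ^ m * law r) ∧
    moment 1 = ∑' i : ℕ, 1 / ((2 : ℝ) ^ (i + 1) + 1) ∧ 0.764 < moment 1 ∧ moment 1 < 0.7646 := by
  have h1 : moment 1 = mu := by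
    unfold moment
    rw [law_mr, ← mean_eq]
    simp only [pow_one]
  refine ⟨?_, ?_, h1, ?_, ?_⟩
  · rw [law_mr]
    exact mr_hasSum
  · rw [law_mr]
    exact mo_summ
  · rw [h1]
    exact mu_bounds.1
  · rw [h1]
    exact mu_bounds.2

theorem lim {M : ℕ} (hM : Family M) (m : ℕ) :
    Tendsto (avg fun D => (corank (tw M D) : ℝ) ^ m) atTop (𝓝 (moment m)) := by
  unfold moment
  rw [law_mr]
  refine (Pool.Agent.R413.CK.moment hM m).congr fun X => ?_
  unfold avg
  rw [card_num, upTo_cls]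
  rfl

theorem bound {M : ℕ} (hM : Family M) (m : ℕ) {δ : ℝ} (hδ : 0 < δ) :
    ∃ X₀ : ℕ, ∀ X : ℕ, X₀ ≤ X → avg (fun D => (rank (tw M D) : ℝ) ^ m) X ≤
      2 ^ m * moment m + δ := by
  obtain ⟨c', hc', hlow⟩ := low_num
  obtain ⟨X₀, h⟩ := eventually_atTop.1 (((Pool.Agent.R413.CK.rank_moment hM m hδ).and hlow).and
    (Pool.Agent.Y703.CX.ev_eL 1))
  refine ⟨X₀, fun X hX => ?_⟩
  obtain ⟨⟨h1, h2⟩, h3⟩ := h X hX
  have hXp : 1 ≤ X := Pool.Agent.Y703.CX.X_pos (by linarith)
  have hX0 : (0 : ℝ) < X := by exact_mod_cast hXp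
  have hN : (0 : ℝ) < (Joint.num (fun _ => True) X : ℝ) := lt_of_lt_of_le (by positivity) h2
  unfold avg moment
  rw [card_num, upTo_cls, div_le_iff₀ hN, law_mr]
  exact h1

theorem average {M : ℕ} (hM : Family M) :
    ∃ X₀ : ℕ, ∀ X : ℕ, X₀ ≤ X → avg (fun D => (rank (tw M D) : ℝ)) X < 1.5292 := by
  have h0 := law_facts.2.2.2.2
  obtain ⟨X₀, h⟩ := bound hM 1 (δ := (1.5292 - 2 * moment 1) / 2) (by linarith)
  refine ⟨X₀, fun X hX => ?_⟩
  have h1 := h X hX
  simp only [pow_one] at h1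
  linarith

end proof

theorem result :
    (∀ M D : ℕ, Family M → Family D → Family (tw M D) ∧ M * D = tw M D * Nat.gcd M D ^ 2) ∧
    (∀ D : ℕ, Family D → Module.Finite ℤ (E D).toAffine.Point ∧ rank D ≤ 2 * corank D ∧
      (corank D = 0 ↔ RankZeroShaTwo D)) ∧
    (HasSum law 1 ∧ (∀ m : ℕ, Summable fun r : ℕ => (r : ℝ) ^ m * law r) ∧
      moment 1 = ∑' i : ℕ, 1 / ((2 : ℝ) ^ (i + 1) + 1) ∧ 0.764 < moment 1 ∧ moment 1 < 0.7646) ∧
    (∀ M : ℕ, Family M → ∀ m : ℕ,
      Tendsto (avg fun D => (corank (tw M D) : ℝ) ^ m) atTop (𝓝 (moment m))) ∧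
    (∀ M : ℕ, Family M → ∀ m : ℕ, ∀ δ : ℝ, 0 < δ → ∃ X₀ : ℕ, ∀ X : ℕ, X₀ ≤ X →
      avg (fun D => (rank (tw M D) : ℝ) ^ m) X ≤ 2 ^ m * moment m + δ) ∧
    (∀ M : ℕ, Family M → ∃ X₀ : ℕ, ∀ X : ℕ, X₀ ≤ X →
      avg (fun D => (rank (tw M D) : ℝ)) X < 1.5292) ∧
    0.4194 < c ∧ c < 0.4195 :=
  ⟨tw_facts, facts, law_facts, fun _ hM m => lim hM m, fun _ hM m _ hδ => bound hM m hδ,
    fun _ hM => average hM, hc⟩

end Pool.Agent.Results.MP_788af2_nt.AverageRankTwistsX49
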