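import Mathlib
import Pool.Agent.R421.EK.One4

/-!
# The average rank of the elliptic curves with a rational cyclic subgroup of order four

The elliptic curves over `ℚ` with a rational cyclic subgroup of order `4`, up to isomorphism, ordered
by height. The average of `4 ^ rank` is bounded over these curves, and over their quadratic twists by
`D`, by `C 128 ^ ω(D)`. A positive proportion of the curves has rank zero. But the 2-Selmer groups of
the curves and of the twists have more than `2 ^ s` elements with probability one, for every `s`: the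
average rank is bounded although the averages of the 2-Selmer ranks are infinite.
-/

set_option autoImplicit false

namespace Pool.Agent.Results.MP_788af2_nt.FourIsogenyAverageRank

open Filter Topology

open Pool.Agent.Y667.SX (Sel2H)

open Pool.Agent.TH841.SH.D (Sha)

/-- the curve `y² = x³ + A x + B` over `ℚ` -/
def E (A B : ℤ) : WeierstrassCurve ℚ := ⟨0, 0, 0, (A : ℚ), (B : ℚ)⟩

/-- the coefficient `A = N² - 3 e²`, `t = (e, N)` -/
def cA (t : ℤ × ℤ) : ℤ := t.2 ^ 2 - 3 * t.1 ^ 2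

/-- the coefficient `B = 2 e³ - N² e`, `t = (e, N)` -/
def cB (t : ℤ × ℤ) : ℤ := 2 * t.1 ^ 3 - t.2 ^ 2 * t.1

/-- The pairs `t = (e, N)` such that `y² = x³ + A x + B`, `A = cA t`, `B = cB t`, is nonsingular, there
is no prime `p` with `p⁴ ∣ A` and `p⁶ ∣ B`, and the height `max (4 |A|³) (27 B²)` is at most `Z`: the
elliptic curves over `ℚ` of height at most `Z`, up to isomorphism, together with a rational cyclic
subgroup of order four (see `marked`). -/
def Fam (Z : ℕ) : Set (ℤ × ℤ) :=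
  {t | 4 * cA t ^ 3 + 27 * cB t ^ 2 ≠ 0 ∧
    (∀ p : ℕ, p.Prime → ¬ ((p : ℤ) ^ 4 ∣ cA t ∧ (p : ℤ) ^ 6 ∣ cB t)) ∧
    4 * |cA t| ^ 3 ≤ Z ∧ 27 * cB t ^ 2 ≤ Z}

/-- `A = cA (e, N)` and `B = cB (e, N)` if and only if `e` is a root of `x³ + A x + B` and
`3 e² + A = N²`. (Then the points with abscissa `e + N` have order four, their double is `(e, 0)`.) -/
theorem marked (A B e N : ℤ) :
    (A = cA (e, N) ∧ B = cB (e, N)) ↔ (e ^ 3 + A * e + B = 0 ∧ 3 * e ^ 2 + A = N ^ 2) := by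
  unfold cA cB
  constructor
  · rintro ⟨rfl, rfl⟩
    constructor <;> ring
  · rintro ⟨h1, h2⟩
    have hA : A = N ^ 2 - 3 * e ^ 2 := by linarith
    refine ⟨hA, ?_⟩
    rw [hA] at h1
    linarith

/-- the twist by `D` of the curve `y² = x³ + A x + B`, `A = cA t`, `B = cB t`:
`y² = x³ + D² A x + D³ B` -/
def twist (D : ℤ) (t : ℤ × ℤ) : WeierstrassCurve ℚ := E (D ^ 2 * cA t) (D ^ 3 * cB t)

/-- the proportion of the curves of `S` among the curves of height at most `Z` -/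
noncomputable def proportion (S : Set (ℤ × ℤ)) (Z : ℕ) : ℝ :=
  ((Fam Z ∩ S).ncard : ℝ) / (Fam Z).ncard

/-- the average of `f` over the curves of height at most `Z` -/
noncomputable def average (f : ℤ × ℤ → ℝ) (Z : ℕ) : ℝ :=
  (∑ᶠ t ∈ Fam Z, f t) / (Fam Z).ncard

/-- the rank -/
noncomputable def rank (W : WeierstrassCurve ℚ) : ℕ := Module.finrank ℤ W.toAffine.Point

/-- the elements of `Ш(W)` whose order is a power of two form a group isomorphic to
`(ℤ / 2 ℤ) ^ k` -/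
def ShaTwoElementary (W : WeierstrassCurve ℚ) (k : ℕ) : Prop :=
  ∃ φ : (Fin k → ZMod 2) →+ Sha W, Function.Injective φ ∧
    ∀ x, x ∈ Set.range φ ↔ ∃ j : ℕ, (2 ^ j) • x = 0

section proof

open Pool.Agent.R421.EK (Fht Hb Cc FM fht_fin mn_lim mn_zero mn_tight mn_minimal marg Mn disc_iff Oks
  fam_sel full_sel Shq fam_avg fam_zero fam_struct mn_big FM_le FM_union)

open Pool.Agent.R431.NO (OkS)

lemma fam_eq (Z : ℕ) : Fam Z = {t | Fht (4, 27) Z t ∧ Mn t} := by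
  ext t
  unfold Fam Fht Hb
  rw [Set.mem_ofPred_eq, Set.mem_ofPred_eq]
  have h := disc_iff t.1 t.2
  have hm : Mn t ↔ ∀ p : ℕ, p.Prime → ¬ ((p : ℤ) ^ 4 ∣ cA t ∧ (p : ℤ) ^ 6 ∣ cB t) := mn_minimal t
  constructor
  · rintro ⟨h1, h4, h2, h3⟩
    refine ⟨⟨⟨?_, ?_⟩, h.1 h1⟩, hm.2 h4⟩
    · change ((4 : ℕ) : ℤ) * |cA t| ^ 3 ≤ Z
      exact_mod_cast h2
    · change ((27 : ℕ) : ℤ) * cB t ^ 2 ≤ Z
      exact_mod_cast h3
  · rintro ⟨⟨⟨h2, h3⟩, h1⟩, h4⟩
    refine ⟨h.2 h1, hm.1 h4, ?_, ?_⟩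
    · have h2' : ((4 : ℕ) : ℤ) * |cA t| ^ 3 ≤ Z := h2
      exact_mod_cast h2'
    · have h3' : ((27 : ℕ) : ℤ) * cB t ^ 2 ≤ Z := h3
      exact_mod_cast h3'

lemma cc : Cc (4, 27) := ⟨by norm_num, le_rfl, by norm_num, le_rfl⟩

lemma fin (Z : ℕ) : (Fam Z).Finite := by
  refine (fht_fin cc Z).subset ?_
  rw [fam_eq]
  exact fun t ht => ht.1

lemma prop_eq (S : Set (ℤ × ℤ)) (Z : ℕ) :
    proportion S Z = (FM (4, 27) Z S : ℝ) / (FM (4, 27) Z Set.univ : ℝ) := by
  unfold proportion FM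
  have e1 : {t : ℤ × ℤ | (Fht (4, 27) Z t ∧ Mn t) ∧ t ∈ S} = Fam Z ∩ S := by
    rw [fam_eq]
    rfl
  have e2 : {t : ℤ × ℤ | (Fht (4, 27) Z t ∧ Mn t) ∧ t ∈ (Set.univ : Set (ℤ × ℤ))} = Fam Z := by
    rw [fam_eq]
    ext t
    simp
  rw [e1, e2]

lemma prop_mono {S S' : Set (ℤ × ℤ)} (h : S ⊆ S') (Z : ℕ) : proportion S Z ≤ proportion S' Z := by
  unfold proportion
  refine div_le_div_of_nonneg_right ?_ (Nat.cast_nonneg _)
  exact_mod_cast Set.ncard_le_ncard (Set.inter_subset_inter_right _ h)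
    ((fin Z).subset Set.inter_subset_left)

lemma card_pos : ∃ Z₀ : ℕ, ∀ Z : ℕ, Z₀ ≤ Z → 0 < (Fam Z).ncard := by
  obtain ⟨R, Y0, h⟩ := mn_tight (n := 1) 0 (4, 27) cc (fun _ => 1) (fun _ => one_ne_zero)
    (fun l m h => absurd (Subsingleton.elim l m) h) 1 one_pos
  refine ⟨Y0, fun Z hZ => ?_⟩
  have h1 := (h Z hZ).1
  unfold FM at h1
  rw [fam_eq]
  refine lt_of_lt_of_le h1 (le_of_eq ?_)
  congr 1
  ext t
  simp

lemma E_eq (D : ℤ) (t : ℤ × ℤ) : twist D t =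
    Shq (D ^ 2 * (t.2 ^ 2 - 3 * t.1 ^ 2)) (D ^ 3 * (2 * t.1 ^ 3 - t.2 ^ 2 * t.1)) := rfl

lemma E_one (t : ℤ × ℤ) : E (cA t) (cB t) =
    Shq ((1 : ℤ) ^ 2 * (t.2 ^ 2 - 3 * t.1 ^ 2)) ((1 : ℤ) ^ 3 * (2 * t.1 ^ 3 - t.2 ^ 2 * t.1)) := by
  unfold E cA cB Shq
  simp only [one_pow, one_mul]

/-- the average of `4 ^ rank` -/
lemma avg : ∃ C : ℝ, ∃ Z₀ : ℕ, ∀ D : ℤ, D ≠ 0 → ∀ Z : ℕ, Z₀ ≤ Z →
    average (fun t => 4 ^ rank (twist D t)) Z ≤ C * 128 ^ D.natAbs.primeFactors.card := by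
  obtain ⟨C, hC, h⟩ := fam_avg
  obtain ⟨Z₁, hZ₁⟩ := card_pos
  refine ⟨C, Z₁ + (10 ^ 2) ^ 6, fun D hD Z hZ => ?_⟩
  have hpos : (0 : ℝ) < (Fam Z).ncard := by exact_mod_cast hZ₁ Z (by omega)
  unfold average
  rw [finsum_mem_eq_finite_toFinset_sum _ (fin Z), div_le_iff₀ hpos]
  have h1 := h (4, 27) cc D hD Z (by omega) (fin Z).toFinset (fun t => by
    rw [Set.Finite.mem_toFinset, fam_eq]
    rfl)
  rw [← Set.ncard_eq_toFinset_card _ (fin Z)] at h1
  exact h1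

/-- many elements -/
lemma big (D : ℤ) (hD : D ≠ 0) (s : ℕ) : Tendsto (proportion {t | Finite (Sel2H (twist D t)) ∧
    2 ^ s < Nat.card (Sel2H (twist D t))}) atTop (𝓝 1) := by
  have h := mn_big (4, 27) cc D hD (fun e N => Real.logb 2 (Nat.card (Sel2H (twist D (e, N)))))
    (fun e N => Finite (Sel2H (twist D (e, N))))
    (fun R => ⟨R + ((R + 1 : ℕ) : ℝ) + ((R + 2 : ℕ) : ℝ), fun e N S h => by
      obtain ⟨-, -, ⟨-, k1, k2⟩, -⟩ := fam_sel h
      have k1' : S - R ≤ Real.logb 2 (Nat.card (Sel2H (twist D (e, N)))) := k1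
      have k2' : Real.logb 2 (Nat.card (Sel2H (twist D (e, N)))) ≤
        S + R + ((R + 1 : ℕ) : ℝ) + ((R + 2 : ℕ) : ℝ) := k2
      have hR : (0 : ℝ) ≤ R := Nat.cast_nonneg _
      rw [abs_le]
      push_cast at k1' k2' ⊢
      constructor <;> linarith⟩)
    (fun R e N S h => (fam_sel h).2.2.1.1) (s : ℝ)
  refine h.congr fun Z => ?_
  rw [prop_eq]
  congr 3
  ext t
  refine and_congr Iff.rfl ?_
  change (s : ℝ) < Real.logb 2 (Nat.card (Sel2H (twist D t))) ↔ _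
  by_cases h0 : Nat.card (Sel2H (twist D t)) = 0
  · rw [h0, Nat.cast_zero, Real.logb_zero]
    constructor
    · intro h
      exact absurd h (not_lt.2 (Nat.cast_nonneg _))
    · intro h
      exact absurd h (by simp)
  · have hpos : (0 : ℝ) < (Nat.card (Sel2H (twist D t)) : ℝ) := by
      exact_mod_cast Nat.pos_of_ne_zero h0
    rw [Real.lt_logb_iff_rpow_lt (by norm_num) hpos, Real.rpow_natCast]
    exact_mod_cast Iff.rfl

/-- the Tate-Shafarevich groups -/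
lemma bigsha (s : ℕ) : Tendsto (proportion {t | {x : Sha (E (cA t) (cB t)) | x + x = 0}.Finite ∧
    2 ^ s < {x : Sha (E (cA t) (cB t)) | x + x = 0}.ncard}) atTop (𝓝 1) := by
  have h := mn_big (4, 27) cc 1 one_ne_zero
    (fun e N => Real.logb 2 ({x : Sha (twist 1 (e, N)) | (2 ^ 1) • x = 0}.ncard))
    (fun e N => {x : Sha (twist 1 (e, N)) | (2 ^ 1) • x = 0}.Finite)
    (fun R => ⟨R + ((R + 1 : ℕ) : ℝ) * (1 : ℕ), fun e N S h => by
      obtain ⟨-, k, -⟩ := fam_sel h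
      obtain ⟨-, k1, k2⟩ := k 1 le_rfl
      have k1' : S - R ≤ Real.logb 2 ({x : Sha (twist 1 (e, N)) | (2 ^ 1) • x = 0}.ncard) := k1
      have k2' : Real.logb 2 ({x : Sha (twist 1 (e, N)) | (2 ^ 1) • x = 0}.ncard) ≤
        S + R + ((R + 1 : ℕ) : ℝ) * (1 : ℕ) := k2
      have hR : (0 : ℝ) ≤ R := Nat.cast_nonneg _
      rw [abs_le]
      push_cast at k1' k2' ⊢
      constructor <;> linarith⟩)
    (fun R e N S h => ((fam_sel h).2.1 1 le_rfl).1) (s : ℝ)
  refine h.congr fun Z => ?_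
  rw [prop_eq]
  congr 3
  ext t
  have e1 : twist 1 t = E (cA t) (cB t) := by
    unfold twist
    rw [one_pow, one_pow, one_mul, one_mul]
  have e2 : {x : Sha (twist 1 t) | (2 ^ 1) • x = 0} = {x : Sha (twist 1 t) | x + x = 0} := by
    ext x
    rw [Set.mem_setOf_eq, Set.mem_setOf_eq, pow_one, two_nsmul]
  change ({x : Sha (twist 1 t) | (2 ^ 1) • x = 0}.Finite ∧
    (s : ℝ) < Real.logb 2 ({x : Sha (twist 1 t) | (2 ^ 1) • x = 0}.ncard)) ↔ _
  rw [e2, e1]
  refine and_congr Iff.rfl ?_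
  change (s : ℝ) < Real.logb 2 ({x : Sha (E (cA t) (cB t)) | x + x = 0}.ncard) ↔ _
  by_cases h0 : {x : Sha (E (cA t) (cB t)) | x + x = 0}.ncard = 0
  · rw [h0, Nat.cast_zero, Real.logb_zero]
    constructor
    · intro h
      exact absurd h (not_lt.2 (Nat.cast_nonneg _))
    · intro h
      exact absurd h (by simp)
  · have hpos : (0 : ℝ) < ({x : Sha (E (cA t) (cB t)) | x + x = 0}.ncard : ℝ) := by
      exact_mod_cast Nat.pos_of_ne_zero h0
    rw [Real.lt_logb_iff_rpow_lt (by norm_num) hpos, Real.rpow_natCast]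
    exact_mod_cast Iff.rfl

/-- the order of the 2-torsion of an elementary group -/
lemma card_elem {W : WeierstrassCurve ℚ} {k : ℕ} (h : ShaTwoElementary W k) :
    {x : Sha W | x + x = 0}.ncard = 2 ^ k := by
  obtain ⟨φ, h1, h2⟩ := h
  have e : {x : Sha W | x + x = 0} = Set.range φ := by
    ext x
    rw [h2]
    constructor
    · intro hx
      refine ⟨1, ?_⟩
      rw [pow_one, two_nsmul]
      exact hx
    · intro hx
      obtain ⟨y, rfl⟩ := (h2 x).2 hx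
      change φ y + φ y = 0
      rw [← map_add]
      have : y + y = 0 := by
        funext i
        exact CharTwo.add_self_eq_zero (y i)
      rw [this, map_zero]
  rw [e, ← Set.image_univ, Set.ncard_image_of_injective _ h1, Set.ncard_univ, Nat.card_fun,
    Nat.card_zmod, Nat.card_eq_fintype_card, Fintype.card_fin]

/-- rank zero -/
lemma zero : ∃ δ : ℝ, 0 < δ ∧ ∀ s : ℕ, ∀ᶠ Z : ℕ in atTop, δ ≤ proportion
    {t | rank (E (cA t) (cB t)) = 0 ∧ ∃ k, s < k ∧ ShaTwoElementary (E (cA t) (cB t)) k} Z := by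
  classical
  obtain ⟨δ, hδ, Y0, h⟩ := fam_zero
  refine ⟨δ / 2, by positivity, fun s => ?_⟩
  have h1 := bigsha s
  rw [Metric.tendsto_atTop] at h1
  obtain ⟨Z₁, hZ₁⟩ := h1 (δ / 2) (by positivity)
  obtain ⟨Z₂, hZ₂⟩ := card_pos
  filter_upwards [eventually_ge_atTop (Y0 + Z₁ + Z₂)] with Z hZ
  have hpos : (0 : ℝ) < (Fam Z).ncard := by exact_mod_cast hZ₂ Z (by omega)
  have h2 := hZ₁ Z (by omega)
  rw [Real.dist_eq] at h2
  have h2' := (abs_lt.1 h2).1
  obtain ⟨K, hK⟩ : ∃ K, K = (fin Z).toFinset := ⟨_, rfl⟩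
  have hK' : ∀ t, t ∈ K ↔ Fht (4, 27) Z t ∧ Mn t := fun t => by
    rw [hK, Set.Finite.mem_toFinset, fam_eq]
    rfl
  have h3 := h (4, 27) cc Z (by omega) K (K.filter (fun t =>
    (Pool.Agent.W307.SE.Sel (3 * t.1 + 2 * t.2) (3 * t.1 - 2 * t.2)).ncard ≤ 4)) hK'
    (fun t => by rw [Finset.mem_filter])
  have hKc : (K.card : ℝ) = (Fam Z).ncard := by
    rw [hK, ← Set.ncard_eq_toFinset_card _ (fin Z)]
  rw [hKc] at h3
  obtain ⟨S1, hS1⟩ : ∃ S1 : Set (ℤ × ℤ), S1 = {t | (Pool.Agent.W307.SE.Sel (3 * t.1 + 2 * t.2)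
    (3 * t.1 - 2 * t.2)).ncard ≤ 4} := ⟨_, rfl⟩
  obtain ⟨S2, hS2⟩ : ∃ S2 : Set (ℤ × ℤ), S2 = {t | {x : Sha (E (cA t) (cB t)) | x + x = 0}.Finite ∧
    2 ^ s < {x : Sha (E (cA t) (cB t)) | x + x = 0}.ncard} := ⟨_, rfl⟩
  have h4 : δ ≤ proportion S1 Z := by
    unfold proportion
    rw [le_div_iff₀ hpos]
    refine h3.trans (le_of_eq ?_)
    rw [← Set.ncard_coe_finset]
    congr 2
    ext t
    rw [Finset.coe_filter, hS1, hK]
    simp
  have h5 : proportion S1 Z ≤ proportion (S1 ∩ S2) Z + (1 - proportion S2 Z) := by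
    unfold proportion
    have a1 : (Fam Z ∩ S1).ncard ≤ (Fam Z ∩ (S1 ∩ S2)).ncard + (Fam Z \ (Fam Z ∩ S2)).ncard := by
      refine (Set.ncard_le_ncard ?_ (((fin Z).subset Set.inter_subset_left).union
        ((fin Z).subset Set.diff_subset))).trans (Set.ncard_union_le _ _)
      intro t ht
      by_cases h : t ∈ S2
      · exact Or.inl ⟨ht.1, ht.2, h⟩
      · exact Or.inr ⟨ht.1, fun h' => h h'.2⟩
    have a2 := Set.ncard_sdiff_add_ncard_of_subset (s := Fam Z ∩ S2) (t := Fam Z)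
      Set.inter_subset_left (fin Z)
    have a1' : ((Fam Z ∩ S1).ncard : ℝ) ≤ (Fam Z ∩ (S1 ∩ S2)).ncard + (Fam Z \ (Fam Z ∩ S2)).ncard := by
      exact_mod_cast a1
    have a2' : ((Fam Z \ (Fam Z ∩ S2)).ncard : ℝ) + (Fam Z ∩ S2).ncard = (Fam Z).ncard := by
      exact_mod_cast a2
    rw [← sub_nonneg]
    have e : ((Fam Z ∩ (S1 ∩ S2)).ncard : ℝ) / (Fam Z).ncard + (1 - ((Fam Z ∩ S2).ncard : ℝ) /
        (Fam Z).ncard) - ((Fam Z ∩ S1).ncard : ℝ) / (Fam Z).ncard =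
        ((Fam Z ∩ (S1 ∩ S2)).ncard + ((Fam Z).ncard - (Fam Z ∩ S2).ncard) - (Fam Z ∩ S1).ncard) /
          (Fam Z).ncard := by
      field_simp
    rw [e]
    refine div_nonneg ?_ hpos.le
    linarith
  have h6 : proportion (S1 ∩ S2) Z ≤ proportion
      {t | rank (E (cA t) (cB t)) = 0 ∧ ∃ k, s < k ∧ ShaTwoElementary (E (cA t) (cB t)) k} Z := by
    unfold proportion
    refine div_le_div_of_nonneg_right ?_ (Nat.cast_nonneg _)
    have : (Fam Z ∩ (S1 ∩ S2)).ncard ≤ (Fam Z ∩ {t | rank (E (cA t) (cB t)) = 0 ∧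
        ∃ k, s < k ∧ ShaTwoElementary (E (cA t) (cB t)) k}).ncard := by
      refine Set.ncard_le_ncard ?_ ((fin Z).subset Set.inter_subset_left)
      intro t ht
      obtain ⟨k0, k1, k2⟩ := ht
      rw [hS1] at k1
      rw [hS2] at k2
      have k0' := k0
      rw [fam_eq] at k0'
      obtain ⟨⟨-, n1, n2⟩, -⟩ := k0'
      obtain ⟨r0, k, φ, q1, q2⟩ := fam_struct n1 n2 k1
      have hE := E_one t
      refine ⟨k0, ?_, ?_⟩
      · unfold rank
        rw [hE]
        exact r0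
      · have hel : ShaTwoElementary (E (cA t) (cB t)) k := by
          rw [hE]
          exact ⟨φ, q1, q2⟩
        refine ⟨k, ?_, hel⟩
        have k3 := k2.2
        rw [card_elem hel] at k3
        exact (Nat.pow_lt_pow_iff_right (by norm_num : 1 < 2)).1 k3
    exact_mod_cast this
  rw [← hS2] at h2'
  linarith

end proof

/-- **Theorem.** For the elliptic curves `E` over `ℚ` with a rational cyclic subgroup of order four, up
to isomorphism, ordered by height: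
* there are `C` and `Z₀` such that for every nonzero integer `D` and `Z ≥ Z₀` the average of
  `4 ^ rank (E^D)` over the curves of height at most `Z` is at most `C 128 ^ ω(D)`, where `ω(D)` is the
  number of the prime factors of `D` (so the average rank is bounded in every family of twists);
* there is a `δ > 0` such that for every `s` and all large `Z`, for a proportion at least `δ` of the
  curves of height at most `Z` the rank is zero and the 2-primary part of the Tate-Shafarevich group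
  is isomorphic to `(ℤ / 2 ℤ) ^ k` with `k > s`;
* for every nonzero integer `D` and every `s` the proportion of the curves for which the 2-Selmer
  group of `E^D` is finite and has more than `2 ^ s` elements tends to one. -/
theorem result :
    (∃ C : ℝ, ∃ Z₀ : ℕ, ∀ D : ℤ, D ≠ 0 → ∀ Z : ℕ, Z₀ ≤ Z → 0 < (Fam Z).ncard ∧
      average (fun t => 4 ^ rank (twist D t)) Z ≤ C * 128 ^ D.natAbs.primeFactors.card) ∧
    (∃ δ : ℝ, 0 < δ ∧ ∀ s : ℕ, ∀ᶠ Z : ℕ in atTop, δ ≤ proportion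
      {t | rank (E (cA t) (cB t)) = 0 ∧ ∃ k, s < k ∧ ShaTwoElementary (E (cA t) (cB t)) k} Z) ∧
    ∀ D : ℤ, D ≠ 0 → ∀ s : ℕ, Tendsto (proportion {t | Finite (Sel2H (twist D t)) ∧
      2 ^ s < Nat.card (Sel2H (twist D t))}) atTop (𝓝 1) := by
  refine ⟨?_, zero, fun D hD s => big D hD s⟩
  obtain ⟨C, Z₀, h⟩ := avg
  obtain ⟨Z₁, h1⟩ := card_pos
  exact ⟨C, Z₀ + Z₁, fun D hD Z hZ => ⟨h1 Z (by omega), h D hD Z (by omega)⟩⟩

end Pool.Agent.Results.MP_788af2_nt.FourIsogenyAverageRank
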