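import Pool.Agent.R432.JG.Common

/-!
# The number of the curves of rank zero among the `3 ^ n` cubic twists by `n` primes: the binomial law and
# the law of large numbers

`E_D : y² + D y = x³` over `ℚ` (`3`-isogenous to `x³ + y³ = D`).  `M` is any finite set of primes
`≡ 1` modulo `9`, `n = #M`.  `D` runs through the squarefree numbers, prime to `3` and to `M`, not `±1`
modulo `9`, that are divisible by exactly one prime `2` modulo `3`, ordered by size.  For an exponent
vector `t ∈ {0, 1, 2} ^ M` let `D_t = D ∏_{l ∈ M} l^{t_l}`.  We prove: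

* the number of the `t` for which `E_{D_t}(ℚ)` is finite and `Ш(E_{D_t})[3^∞] = 0` has in the limit
  exactly the binomial law `B(3 ^ n, c)`, `c = ∏_{i ≥ 1} (1 - 3^{-i}) = 0.5601...`; for these `t` the
  Hasse-Weil `L`-function of `E_{D_t}` does not vanish at `s = 1`;
* for every `ε > 0` there is `n₀` such that for every `M` with at least `n₀` elements, for all but a
  proportion `ε` of the `D`, at least `(c - ε) 3 ^ n` of the `3 ^ n` curves `E_{D_t}` have rank and
  analytic rank zero.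

The proof.  The joint law of the `3 ^ n` residue matrices of the cubic twists (project JL, see
`MP_a3f657_nt/IndependentCubicTwists`), the criterion of the library for one `D_t` (project CT), and the
`L`-function with all its Euler factors (`R432/JG/Full.lean`).

Authors of the parts of project JL: helper962, helper159, helper152, helper916, helper258, helper432; the
binomial law and the law of large numbers for independent events are from `R413/MQ/Bin.lean` (helper413).
-/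

set_option autoImplicit false

namespace Pool.Agent.Results.MP_788af2_nt.ManyCubicTwists

open NumberField IsDedekindDomain Filter Topology
open scoped Classical

/-- The curve `E_D : y² + D y = x³` over `ℚ`. -/
def curve (D : ℕ) : WeierstrassCurve ℚ := ⟨0, 0, (D : ℚ), 0, 0⟩

/-- `D` is squarefree, not divisible by `3`, not `±1` modulo `9`, not divisible by the elements of `M`,
and divisible by exactly one prime that is `2` modulo `3`. -/
def InClass (M : Finset ℕ) (D : ℕ) : Prop :=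
  Squarefree D ∧ ¬ 3 ∣ D ∧ D % 9 ≠ 1 ∧ D % 9 ≠ 8 ∧ (∀ l ∈ M, ¬ l ∣ D) ∧
    ∃ q : ℕ, q.Prime ∧ q % 3 = 2 ∧ q ∣ D ∧ ∀ p : ℕ, p.Prime → p ∣ D → p ≠ q → p % 3 = 1

/-- The number `D_t = D ∏_{l ∈ M} l ^ (t l)`, with exponents `0`, `1`, `2`. -/
def twist (M : Finset ℕ) (D : ℕ) (t : {l : ℕ // l ∈ M} → ZMod 3) : ℕ :=
  D * ∏ l : {l : ℕ // l ∈ M}, l.1 ^ (t l).val

/-- `E_D(ℚ)` is finite and `Ш(E_D)[3^∞] = 0`. -/
def TrivialThree (D : ℕ) : Prop :=
  Finite (curve D).toAffine.Point ∧
    ∀ (n : ℕ) (x : Pool.Agent.TH841.SH.D.Sha (curve D)), 3 ^ n • x = 0 → x = 0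

section field

variable {K : Type} [Field K] [NumberField K]

/-- `V v` is, for every prime `v`, an integral model of `E` with discriminant minimal at `v`. -/
def MinimalModels (E : WeierstrassCurve K)
    (V : HeightOneSpectrum (𝓞 K) → WeierstrassCurve (𝓞 K)) : Prop :=
  ∀ v : HeightOneSpectrum (𝓞 K),
    (∃ C : WeierstrassCurve.VariableChange K, C • (V v).map (algebraMap (𝓞 K) K) = E) ∧
    ∀ W : WeierstrassCurve (𝓞 K),
      (∃ C : WeierstrassCurve.VariableChange K, C • W.map (algebraMap (𝓞 K) K) = E) →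
        ∀ n : ℕ, (V v).Δ ∈ v.asIdeal ^ n → W.Δ ∈ v.asIdeal ^ n

/-- The Euler factor at `v`, computed from the reduction of `V v`, where `a_v` is `q_v` minus the number
of affine points of the reduction. -/
noncomputable def factor (V : HeightOneSpectrum (𝓞 K) → WeierstrassCurve (𝓞 K)) (s : ℂ)
    (v : HeightOneSpectrum (𝓞 K)) : ℂ :=
  (1 - ((Ideal.absNorm v.asIdeal : ℂ)
        - (Nat.card {xy : (𝓞 K ⧸ v.asIdeal) × (𝓞 K ⧸ v.asIdeal) //
            ((V v).map (Ideal.Quotient.mk v.asIdeal)).toAffine.Equation xy.1 xy.2} : ℂ))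
        * (Ideal.absNorm v.asIdeal : ℂ) ^ (-s)
    + (if (V v).Δ ∈ v.asIdeal then 0 else (Ideal.absNorm v.asIdeal : ℂ))
        * (Ideal.absNorm v.asIdeal : ℂ) ^ (-2 * s))⁻¹

end field

/-- The rank and the analytic rank of `E_D` over `ℚ` are zero: `E_D` has minimal models; the Euler product
over all primes (whatever the minimal models) converges for `Re s > 3/2` to a function that has a
meromorphic continuation to `ℂ`, analytic and not zero at `s = 1`; and `E_D(ℚ)` is finite. -/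
def RanksZero (D : ℕ) : Prop :=
  (∃ V : HeightOneSpectrum (𝓞 ℚ) → WeierstrassCurve (𝓞 ℚ), MinimalModels (curve D) V) ∧
  (∃ Λ : ℂ → ℂ, MeromorphicOn Λ Set.univ ∧
    (∀ V : HeightOneSpectrum (𝓞 ℚ) → WeierstrassCurve (𝓞 ℚ), MinimalModels (curve D) V →
      ∀ s : ℂ, 3 / 2 < s.re → HasProd (factor V s) (Λ s)) ∧
    AnalyticAt ℂ Λ 1 ∧ Λ 1 ≠ 0) ∧
  Finite (curve D).toAffine.Point

/-- The number of the `t` such that `E_{D_t}(ℚ)` is finite and `Ш(E_{D_t})[3^∞] = 0`. -/
noncomputable def count (M : Finset ℕ) (D : ℕ) : ℕ :=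
  ((Finset.univ : Finset ({l : ℕ // l ∈ M} → ZMod 3)).filter fun t =>
    TrivialThree (twist M D t)).card

/-- The number of the `t` such that the rank and the analytic rank of `E_{D_t}` are zero. -/
noncomputable def zeros (M : Finset ℕ) (D : ℕ) : ℕ :=
  ((Finset.univ : Finset ({l : ℕ // l ∈ M} → ZMod 3)).filter fun t =>
    RanksZero (twist M D t)).card

/-- The number of the `D ≤ X` in the class with the property `Q`. -/
noncomputable def num (M : Finset ℕ) (Q : ℕ → Prop) (X : ℕ) : ℕ :=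
  ((Finset.Icc 1 X).filter fun D => InClass M D ∧ Q D).card

/-- `c = ∏_{i ≥ 1} (1 - 3^{-i})`. -/
noncomputable def c : ℝ := ∏' i : ℕ, (1 - (1 / 3 : ℝ) ^ (i + 1))

section proof

open Pool.Agent.H341R2.EC (IsModel IsMinAt red aff trc dlt)
open Pool.Agent.R433.MD (lf)
open Pool.Agent.H921R2.TatePole (nm two_le_nm)
open Pool.Agent.R432.JG (Cl cl_iff triv_iff tw_cls pre_of law_pat twN Pre all_good full)
open Pool.Agent.R413.MQ.Bin (cnt cnt_card cnt_congr N law_eq lln cnt_union)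

section bridge
variable {K : Type} [Field K] [NumberField K]

theorem isModel_iff (E : WeierstrassCurve K) (W : WeierstrassCurve (𝓞 K)) :
    (∃ C : WeierstrassCurve.VariableChange K, C • W.map (algebraMap (𝓞 K) K) = E) ↔
      IsModel E W := by
  constructor
  · rintro ⟨C, hC⟩
    exact ⟨C⁻¹, by rw [← hC, inv_smul_smul]⟩
  · rintro ⟨C, hC⟩
    exact ⟨C⁻¹, by rw [← hC, inv_smul_smul]⟩

theorem minimalModels_iff (E : WeierstrassCurve K)
    (V : HeightOneSpectrum (𝓞 K) → WeierstrassCurve (𝓞 K)) :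
    MinimalModels E V ↔ ∀ v, IsMinAt E v (V v) := by
  unfold MinimalModels IsMinAt
  simp only [isModel_iff]

theorem factor_eq (V : HeightOneSpectrum (𝓞 K) → WeierstrassCurve (𝓞 K)) (s : ℂ)
    (v : HeightOneSpectrum (𝓞 K)) : factor V s v = (lf V s v)⁻¹ := by
  unfold factor
  congr 1
  unfold lf trc dlt
  have h0 : ((nm v : ℕ) : ℂ) ≠ 0 := by
    have := two_le_nm v
    exact_mod_cast (by omega : nm v ≠ 0)
  have e1 : Nat.card {xy : (𝓞 K ⧸ v.asIdeal) × (𝓞 K ⧸ v.asIdeal) //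
      ((V v).map (Ideal.Quotient.mk v.asIdeal)).toAffine.Equation xy.1 xy.2} =
      aff (red v (V v)) := by
    unfold aff red
    refine Nat.card_congr (Equiv.subtypeEquivRight fun xy => ?_)
    rw [WeierstrassCurve.Affine.equation_iff]
  have e2 : ((nm v : ℕ) : ℂ) ^ (1 - 2 * s) = ((nm v : ℕ) : ℂ) * ((nm v : ℕ) : ℂ) ^ (-2 * s) := by
    rw [sub_eq_add_neg, Complex.cpow_add _ _ h0, Complex.cpow_one]
    congr 2
    ring
  have e3 : (Ideal.absNorm v.asIdeal : ℂ) = ((nm v : ℕ) : ℂ) := rfl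
  rw [e1, e2, e3]
  push_cast
  split_ifs with h
  · ring
  · ring

end bridge

/-- the theorem for one number -/
theorem ranks_zero {D : ℕ} (hC : Pool.Agent.Y703.CT.Cls D) (hN : Pool.Agent.Y703.CT.NoSplit D) :
    RanksZero D := by
  have hD0 : D ≠ 0 := hC.1.1
  have hA : Pre D ∅ := ⟨fun l hl => absurd hl (Finset.notMem_empty l),
    fun l hl => absurd hl (Finset.notMem_empty l), fun l hl => absurd hl (Finset.notMem_empty l)⟩
  obtain ⟨-, h2, -, G, h4, h5, h6⟩ := all_good (L := ℚ) hC hA (fun t => by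
    have : twN D ∅ t = D := by
      unfold twN
      simp
    rw [this]
    exact hN) (fun _ => 0) (fun l hl => absurd hl (Finset.notMem_empty l)) (fun M _ => by
      rw [eq_top_iff]
      intro x _
      have := SubfieldClass.ratCast_mem M x
      simpa using this)
  have hE : (curve D).IsElliptic := Pool.Agent.R432.JG.ell (L := ℚ) hD0
  obtain ⟨V0, hV0⟩ := Pool.Agent.R433.MD.exists_minimal (curve D) hE
  have hB : 3 * D * ∏ l ∈ (∅ : Finset ℕ), l ≠ 0 := by
    rw [Finset.prod_empty, mul_one]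
    exact mul_ne_zero (by norm_num) hD0
  obtain ⟨Λ, h7, h8, h9, h10⟩ := full (L := ℚ) hB (Dvd.intro _ rfl) h4 h5 h6
  refine ⟨⟨V0, (minimalModels_iff _ _).2 hV0⟩, ⟨Λ, h7, fun V hV s hs => ?_, h8, h9⟩, h2⟩
  have hV' := (minimalModels_iff _ _).1 hV
  rw [h10 V hV' s hs]
  exact ((Pool.Agent.R433.MD.hasProd_lf _ hE V hV' hs).1).congr_fun fun v => factor_eq V s v

theorem num_eq (M : Finset ℕ) (Q : ℕ → Prop) (X : ℕ) : num M Q X = cnt (Cl M) Q X := by
  unfold num
  symm
  refine cnt_card fun D => ?_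
  rw [Finset.mem_filter, show InClass M D ↔ Cl M D from (cl_iff M D).symm]

theorem triv_eq {M : Finset ℕ} (hM : ∀ l ∈ M, l.Prime ∧ l % 9 = 1) {D : ℕ} (hD : Cl M D)
    (t : {l : ℕ // l ∈ M} → ZMod 3) :
    TrivialThree (twist M D t) ↔ Pool.Agent.Y703.CT.NoSplit (twN D M t) :=
  triv_iff (tw_cls (t := t) hD.2.1 (pre_of hM hD))

theorem count_eq {M : Finset ℕ} (hM : ∀ l ∈ M, l.Prime ∧ l % 9 = 1) {D : ℕ} (hD : Cl M D) :
    count M D = N (Finset.univ : Finset ({l : ℕ // l ∈ M} → ZMod 3))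
      (fun t D => Pool.Agent.Y703.CT.NoSplit (twN D M t)) D := by
  unfold count N
  refine congrArg Finset.card ?_
  ext t
  rw [Finset.mem_filter, Finset.mem_filter]
  exact and_congr_right fun _ => triv_eq hM hD t

theorem count_le {M : Finset ℕ} (hM : ∀ l ∈ M, l.Prime ∧ l % 9 = 1) {D : ℕ} (hD : Cl M D) :
    count M D ≤ zeros M D := by
  refine Finset.card_le_card fun t ht => ?_
  rw [Finset.mem_filter] at ht ⊢
  exact ⟨ht.1, ranks_zero (tw_cls (t := t) hD.2.1 (pre_of hM hD)) ((triv_eq hM hD t).1 ht.2)⟩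

end proof

open Pool.Agent.R432.JG (Cl cl_iff law_pat twN tw_cls pre_of)
open Pool.Agent.R413.MQ.Bin (cnt cnt_card cnt_congr N law_eq lln cnt_union)

/-- **Main theorem.** -/
theorem result :
    (∀ M : Finset ℕ, (∀ l ∈ M, l.Prime ∧ l % 9 = 1) →
      (∃ c' : ℝ, 0 < c' ∧ ∃ X₀ : ℕ, ∀ X : ℕ, X₀ ≤ X →
        c' * X / Real.sqrt (Real.log X) ≤ (num M (fun _ => True) X : ℝ)) ∧
      (∀ D : ℕ, InClass M D → ∀ t : {l : ℕ // l ∈ M} → ZMod 3, TrivialThree (twist M D t) →
        RanksZero (twist M D t)) ∧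
      (∀ k : ℕ, Tendsto (fun X : ℕ => (num M (fun D => count M D = k) X : ℝ) /
        (num M (fun _ => True) X : ℝ)) atTop
        (𝓝 (((3 ^ M.card).choose k : ℝ) * c ^ k * (1 - c) ^ (3 ^ M.card - k))))) ∧
    (∀ ε : ℝ, 0 < ε → ∃ n₀ : ℕ, ∀ M : Finset ℕ, (∀ l ∈ M, l.Prime ∧ l % 9 = 1) → n₀ ≤ M.card →
      ∃ X₀ : ℕ, ∀ X : ℕ, X₀ ≤ X →
        (1 - ε) * (num M (fun _ => True) X : ℝ) ≤
          (num M (fun D => (c - ε) * 3 ^ M.card ≤ (zeros M D : ℝ)) X : ℝ)) ∧
    (0.56 : ℝ) < c ∧ c < 1 := by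
  have hc1 : (0.56 : ℝ) < c := Pool.Agent.R432.JG.c3_gt
  have hc2 : c < 1 := Pool.Agent.Y461.CX.t_C3.2.2.1
  have hc0 : (0 : ℝ) < c := by linarith
  have hcard : ∀ M : Finset ℕ, (Finset.univ : Finset ({l : ℕ // l ∈ M} → ZMod 3)).card =
      3 ^ M.card := fun M => by
    rw [Finset.card_univ, Fintype.card_fun, ZMod.card, Fintype.card_coe]
  refine ⟨fun M hM => ⟨?_, fun D hD t ht => ?_, fun k => ?_⟩, fun ε hε => ?_, hc1, hc2⟩
  · obtain ⟨c₀, hc₀, X₀, hlow⟩ := Pool.Agent.R432.JG.low hM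
    refine ⟨c₀, hc₀, X₀, fun X hX => (hlow X hX).trans (le_of_eq ?_)⟩
    have : num M (fun _ => True) X = ((Finset.Icc 1 X).filter fun D => Cl M D).card := by
      rw [num_eq]
      refine cnt_card fun D => ?_
      rw [Finset.mem_filter, and_iff_left trivial]
    rw [this]
  · have hC : Cl M D := (cl_iff M D).2 hD
    exact ranks_zero (tw_cls (t := t) hC.2.1 (pre_of hM hC)) ((triv_eq hM hC t).1 ht)
  · have h := law_eq (law_pat hM Finset.univ) k
    rw [hcard] at h
    have h' : Tendsto (fun X : ℕ => (num M (fun D => count M D = k) X : ℝ) /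
        (num M (fun _ => True) X : ℝ)) atTop
        (𝓝 (((3 ^ M.card).choose k : ℝ) * Pool.Agent.Y703.CX.c3 ^ k *
          (1 - Pool.Agent.Y703.CX.c3) ^ (3 ^ M.card - k))) := by
      refine h.congr fun X => ?_
      have e := cnt_congr (Fam := Cl M) (Q := fun D => count M D = k)
        (R := fun D => N (Finset.univ : Finset ({l : ℕ // l ∈ M} → ZMod 3))
          (fun t D => Pool.Agent.Y703.CT.NoSplit (twN D M t)) D = k)
        (fun D hD => by rw [count_eq hM hD]) X
      rw [num_eq, num_eq, e]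
    exact h'
  · obtain ⟨n₀, hn₀⟩ := exists_nat_gt (2 * (c * (1 - c)) / (ε ^ 3))
    refine ⟨n₀, fun M hM hn => ?_⟩
    have h3n : (n₀ : ℝ) < ((3 ^ M.card : ℕ) : ℝ) := by
      have h1 : M.card < 3 ^ M.card := Nat.lt_pow_self (by norm_num)
      exact_mod_cast lt_of_le_of_lt hn h1
    have hT0 : (0 : ℝ) < ((3 ^ M.card : ℕ) : ℝ) := by positivity
    have hne : (Finset.univ : Finset ({l : ℕ // l ∈ M} → ZMod 3)).Nonempty := ⟨0, Finset.mem_univ _⟩
    obtain ⟨X₀, h⟩ := lln hne hc0.le hc2.le (law_pat hM Finset.univ) hε (show 0 < ε / 2 by linarith)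
    refine ⟨X₀, fun X hX => ?_⟩
    have h1 := h X hX
    rw [hcard] at h1
    have h2 : c * (1 - c) / (ε ^ 2 * ((3 ^ M.card : ℕ) : ℝ)) ≤ ε / 2 := by
      have h3 := hn₀.trans h3n
      rw [div_lt_iff₀ (by positivity)] at h3
      rw [div_le_iff₀ (by positivity)]
      nlinarith
    have hA : (0 : ℝ) ≤ (cnt (Cl M) (fun _ => True) X : ℝ) := Nat.cast_nonneg _
    have h4 := h1.trans (mul_le_mul_of_nonneg_right
      (b := c * (1 - c) / (ε ^ 2 * ((3 ^ M.card : ℕ) : ℝ)) + ε / 2) (c := ε) (by linarith) hA)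
    have h5 := cnt_union (Fam := Cl M)
      (Q := fun D => ε ≤ |(N (Finset.univ : Finset ({l : ℕ // l ∈ M} → ZMod 3))
        (fun t D => Pool.Agent.Y703.CT.NoSplit (twN D M t)) D : ℝ) / ((3 ^ M.card : ℕ) : ℝ) - c|)
      (R := fun D => (c - ε) * 3 ^ M.card ≤ (zeros M D : ℝ)) (fun D hD => by
        by_cases h6 : ε ≤ |(N (Finset.univ : Finset ({l : ℕ // l ∈ M} → ZMod 3))
          (fun t D => Pool.Agent.Y703.CT.NoSplit (twN D M t)) D : ℝ) / ((3 ^ M.card : ℕ) : ℝ) - c|
        · exact Or.inl h6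
        · refine Or.inr ?_
          rw [not_le, ← count_eq hM hD] at h6
          have h7 := (abs_lt.1 h6).1
          have h8 : (c - ε) * ((3 ^ M.card : ℕ) : ℝ) ≤ (count M D : ℝ) := by
            have h9 : c - ε ≤ (count M D : ℝ) / ((3 ^ M.card : ℕ) : ℝ) := by linarith
            rwa [le_div_iff₀ hT0] at h9
          have h10 : (count M D : ℝ) ≤ zeros M D := by exact_mod_cast count_le hM hD
          have h11 := h8.trans h10
          push_cast at h11
          exact h11) X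
    have h6 : (cnt (Cl M) (fun _ => True) X : ℝ) ≤
        (cnt (Cl M) (fun D => ε ≤ |(N (Finset.univ : Finset ({l : ℕ // l ∈ M} → ZMod 3))
        (fun t D => Pool.Agent.Y703.CT.NoSplit (twN D M t)) D : ℝ) / ((3 ^ M.card : ℕ) : ℝ) -
          c|) X : ℝ) +
        (cnt (Cl M) (fun D => (c - ε) * 3 ^ M.card ≤ (zeros M D : ℝ)) X : ℝ) := by exact_mod_cast h5
    rw [num_eq, num_eq]
    have h7 : (cnt (Cl M) (fun D => ε ≤ |(N (Finset.univ : Finset ({l : ℕ // l ∈ M} → ZMod 3))
        (fun t D => Pool.Agent.Y703.CT.NoSplit (twN D M t)) D : ℝ) / ((3 ^ M.card : ℕ) : ℝ) -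
          c|) X : ℝ) ≤ ε * (cnt (Cl M) (fun _ => True) X : ℝ) := h4
    linarith

end Pool.Agent.Results.MP_788af2_nt.ManyCubicTwists
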